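import Pool.Agent.Work.MP_41a257_ag.Hedge.Fin

open MvPolynomial Pool.Agent.Work.MP_41a257_ag

namespace Pool.Agent.Results.MP_41a257_ag.EveryCharacteristic

/-- In every characteristic `p > 0`, on the affine plane, the equisingular stratum of the complete
ideal `(y ^ p + x ^ (p ^ 2 + 1)) + (x ^ p, y) ^ (p + 1)` of colength `p ^ 2 (p + 3) / 2` is
singular at that ideal. -/
theorem result (p : ℕ) [Fact p.Prime] (k : Type*) [Field k] [IsAlgClosed k] [CharP k p] :
    ∃ (I₀ : Ideal (MvPolynomial (Fin 2) k))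
      (b : ((β : Fin p) × Fin (p * (p + 1 - β))) → MvPolynomial (Fin 2) k)
      (h : I₀ ∈ stratum k (FractionRing (MvPolynomial (Fin 2) k)) I₀ ∩ hilbChart k b),
      I₀ = Ideal.span {X 1 ^ p + X 0 ^ (p ^ 2 + 1)} ⊔ Ideal.span {X 0 ^ p, X 1} ^ (p + 1) ∧
      (∀ i, b i = X 0 ^ (i.2 : ℕ) * X 1 ^ (i.1 : ℕ)) ∧
      IsComplete I₀ ∧
      2 * Module.finrank k (MvPolynomial (Fin 2) k ⧸ I₀) = p ^ 2 * (p + 3) ∧
      Nat.card (cluster (FractionRing (MvPolynomial (Fin 2) k)) I₀) = p ^ 2 + p ∧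
      ¬ IsSmoothPoint k b
        (stratum k (FractionRing (MvPolynomial (Fin 2) k)) I₀ ∩ hilbChart k b) ⟨I₀, h⟩ := by
  have hp : 2 ≤ p := (Fact.out : p.Prime).two_le
  have h := fI_mem (k := k) (FractionRing (P2 k)) hp (one_add_zero_pow' hp)
  refine ⟨fI p 0, gb k p, h, fI_zero hp, fun _ => rfl, h.1.1, ?_, ?_, not_smooth_p _ hp⟩
  · rw [finrank_of_chart h.2, card_Ix]
  · rw [← Nat.card_congr (shape_fm (FractionRing (P2 k)) hp (one_add_zero_pow' hp)).equiv,
      Nat.card_eq_fintype_card, Fintype.card_fin, pow_two, add_comm]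

end Pool.Agent.Results.MP_41a257_ag.EveryCharacteristic
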